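import Pool.Agent.Helper1.Stab.Defs

/-! `BG D` is a Hausdorff space. -/

open Topology Filter Set Matrix

noncomputable section

namespace Pool.Agent.Helper36.Stab

open Pool.Agent.Helper1.Stab

/-- entries of the projection onto the range of an isometry -/
def pij (A : ℕ → ℕ → ℂ) (i j : ℕ) : ℂ := ∑ᶠ c : ℕ, A i c * star (A j c)

theorem pij_eq {k : ℕ} (A : Frame k) (i j : ℕ) :
    pij A.1 i j = ∑ c ∈ Finset.range k, A.1 i c * star (A.1 j c) +
      ∑ c ∈ Finset.range (i + 1), (if i = 2 * (k + c) then (1 : ℂ) else 0) *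
        star (if j = 2 * (k + c) then (1 : ℂ) else 0) := by
  have h : Function.support (fun c : ℕ => A.1 i c * star (A.1 j c)) ⊆
      ((Finset.range (k + (i + 1)) : Finset ℕ) : Set ℕ) := by
    intro c hc
    by_contra hn
    rw [Finset.mem_coe, Finset.mem_range, not_lt] at hn
    refine hc ?_
    change A.1 i c * star (A.1 j c) = 0
    rw [A.2.1 i c (Or.inr (by omega)), if_neg (by omega), zero_mul]
  rw [pij, finsum_eq_sum_of_support_subset _ h, Finset.sum_range_add]
  congr 1
  refine Finset.sum_congr rfl fun c _ => ?_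
  rw [A.2.1 i (k + c) (Or.inr (by omega)), A.2.1 j (k + c) (Or.inr (by omega))]

theorem continuous_entry {k : ℕ} (i j : ℕ) : Continuous fun A : Frame k => A.1 i j :=
  (continuous_apply j).comp ((continuous_apply i).comp continuous_subtype_val)

theorem pij_continuous (k i j : ℕ) : Continuous fun A : Frame k => pij A.1 i j := by
  simp only [pij_eq]
  refine Continuous.add ?_ continuous_const
  exact continuous_finsetSum _ fun c _ => (continuous_entry i c).mul
    (continuous_star.comp (continuous_entry j c))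

theorem pij_rot {D : Set ℂ} {k : ℕ} {A B : Frame k} (h : FrameRel D k A B) (i j : ℕ) :
    pij A.1 i j = pij B.1 i j := by
  obtain ⟨g, hg, -, hB⟩ := h
  rw [pij_eq, pij_eq]
  congr 1
  rw [Finset.sum_range, Finset.sum_range]
  have h1 : g * star g = 1 := (Matrix.mem_unitaryGroup_iff).1 hg
  simp only [hB]
  have e1 : ∀ c : Fin k, (∑ l : Fin k, A.1 i l * g l c) * star (∑ l : Fin k, A.1 j l * g l c)
      = ∑ l : Fin k, ∑ l' : Fin k, (A.1 i l * star (A.1 j l')) * (g l c * star (g l' c)) := by
    intro c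
    rw [star_sum, Finset.sum_mul_sum]
    refine Finset.sum_congr rfl fun l _ => Finset.sum_congr rfl fun l' _ => ?_
    rw [star_mul']
    ring
  simp only [e1]
  rw [Finset.sum_comm]
  refine Finset.sum_congr rfl fun l _ => ?_
  rw [Finset.sum_comm]
  have e2 : ∀ l' : Fin k, ∑ c : Fin k, (A.1 i l * star (A.1 j l')) * (g l c * star (g l' c))
      = (A.1 i l * star (A.1 j l')) * (if l = l' then 1 else 0) := by
    intro l'
    rw [← Finset.mul_sum]
    congr 1
    have := congrFun (congrFun h1 l) l'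
    rw [Matrix.mul_apply, Matrix.one_apply] at this
    exact this
  simp only [e2]
  simp

/-- the function on `BG D` -/
def pBG (D : Set ℂ) (i j : ℕ) : BG D → ℂ :=
  Quot.lift (fun x : Σ k, Frame k => pij x.2.1 i j) (fun a b h => by
    cases h with
    | rot h => exact pij_rot h i j
    | stab A => rfl)

theorem pBG_continuous (D : Set ℂ) (i j : ℕ) : Continuous (pBG D i j) :=
  continuous_quot_lift _ (continuous_sigma_iff.2 fun k => pij_continuous k i j)

/-- minors -/
def minor (A : ℕ → ℕ → ℂ) (s : ℕ → ℕ) (M : ℕ) : ℂ :=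
  Matrix.det (Matrix.of fun i j : Fin M => A (s i) j)

theorem minor_succ {k : ℕ} (A : Frame k) (s : ℕ → ℕ) (M : ℕ) (hM : k ≤ M) (hs : s M = 2 * M) :
    minor A.1 s (M + 1) = minor A.1 s M := by
  rw [minor, Matrix.det_succ_row _ (Fin.last M), Finset.sum_eq_single (Fin.last M)]
  · have h1 : (Matrix.of fun i j : Fin (M + 1) => A.1 (s i) j) (Fin.last M) (Fin.last M) = 1 := by
      rw [Matrix.of_apply, Fin.val_last, hs, A.2.1 _ _ (Or.inl (by omega)), if_pos rfl]
    rw [h1, mul_one, Even.neg_one_pow (by exact ⟨(Fin.last M : Fin (M+1)).1, rfl⟩), one_mul, minor]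
    congr 1
    ext i j
    simp [Matrix.submatrix_apply]
  · intro j _ hj
    have h1 : (Matrix.of fun i j : Fin (M + 1) => A.1 (s i) j) (Fin.last M) j = 0 := by
      rw [Matrix.of_apply, Fin.val_last, hs, A.2.1 _ _ (Or.inl (by omega)), if_neg]
      intro h
      exact hj (Fin.ext (by rw [Fin.val_last]; omega))
    rw [h1, mul_zero, zero_mul]
  · intro h
    exact absurd (Finset.mem_univ _) h

theorem minor_continuous (k : ℕ) (s : ℕ → ℕ) (M : ℕ) :
    Continuous fun A : Frame k => minor A.1 s M := by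
  refine Continuous.matrix_det ?_
  exact continuous_matrix fun i j => continuous_entry (s i) j

theorem minor_rot {k : ℕ} {A B : Frame k} {g : Matrix (Fin k) (Fin k) ℂ}
    (hB : ∀ (i : ℕ) (j : Fin k), B.1 i j = ∑ l : Fin k, A.1 i l * g l j) (s : ℕ → ℕ) (n : ℕ) :
    minor B.1 s (k + n) = minor A.1 s (k + n) * g.det := by
  have h1 : (Matrix.of fun i j : Fin (k + n) => B.1 (s i) j) =
      (Matrix.of fun i j : Fin (k + n) => A.1 (s i) j) *
        Matrix.reindex finSumFinEquiv finSumFinEquiv (Matrix.fromBlocks g 0 0 1) := by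
    ext i j
    rw [Matrix.mul_apply, Matrix.of_apply, Fin.sum_univ_add]
    refine Fin.addCases (fun j0 => ?_) (fun j0 => ?_) j
    · simp only [Matrix.of_apply, Matrix.reindex_apply, Matrix.submatrix_apply,
        finSumFinEquiv_symm_apply_castAdd, finSumFinEquiv_symm_apply_natAdd,
        Matrix.fromBlocks_apply₁₁, Matrix.fromBlocks_apply₂₁, Matrix.zero_apply, mul_zero,
        Finset.sum_const_zero, add_zero, Fin.val_castAdd]
      exact hB _ _
    · simp only [Matrix.of_apply, Matrix.reindex_apply, Matrix.submatrix_apply,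
        finSumFinEquiv_symm_apply_castAdd, finSumFinEquiv_symm_apply_natAdd,
        Matrix.fromBlocks_apply₁₂, Matrix.fromBlocks_apply₂₂, Matrix.zero_apply, mul_zero,
        Finset.sum_const_zero, zero_add, Fin.val_natAdd, Matrix.one_apply, mul_ite, mul_one]
      rw [Finset.sum_ite_eq' Finset.univ j0, if_pos (Finset.mem_univ _), A.2.1 _ _ (Or.inr (by omega)),
        B.2.1 _ _ (Or.inr (by omega))]
  rw [minor, h1, Matrix.det_mul, Matrix.det_reindex_self, Matrix.det_fromBlocks_zero₂₁,
    Matrix.det_one, mul_one, minor]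

/-- the minors as functions on `BSU` -/
def mBG (s : ℕ → ℕ) (N : ℕ) (hs : ∀ c, N ≤ c → s c = 2 * c) : BG {1} → ℂ :=
  Quot.lift (fun x : Σ k, Frame k => minor x.2.1 s (x.1 + N)) (fun a b h => by
    cases h with
    | rot h =>
      obtain ⟨g, hg, hd, hB⟩ := h
      have : g.det = 1 := hd
      change minor _ s _ = minor _ s _
      rw [minor_rot hB, this, mul_one]
    | @stab k A =>
      change minor A.1 s (k + N) = minor A.1 s (k + 1 + N)
      rw [show k + 1 + N = (k + N) + 1 by ring]
      exact (minor_succ A s (k + N) (by omega) (hs _ (by omega))).symm)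

theorem mBG_continuous (s : ℕ → ℕ) (N : ℕ) (hs : ∀ c, N ≤ c → s c = 2 * c) :
    Continuous (mBG s N hs) :=
  continuous_quot_lift _ (continuous_sigma_iff.2 fun k => minor_continuous k s (k + N))

/-- some minor of an isometry does not vanish -/
theorem exists_minor {m : ℕ} (A : Frame m) : ∃ s : ℕ → ℕ, (∀ c, m ≤ c → s c = 2 * c) ∧
    minor A.1 s m ≠ 0 := by
  classical
  let r : Fin (2 * m) → (Fin m → ℂ) := fun i j => A.1 i j
  obtain ⟨κ, a, -, hsp, hli⟩ := exists_linearIndependent' ℂ r
  -- the rows span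
  have htop : Submodule.span ℂ (Set.range r) = ⊤ := by
    by_contra hne
    obtain ⟨φ, hφ0, hφ⟩ := Submodule.exists_le_ker_of_lt_top _ (lt_top_iff_ne_top.2 hne)
    let x : Fin m → ℂ := fun j => φ (Pi.single j 1)
    have hx : ∀ i : Fin (2 * m), ∑ j : Fin m, A.1 i j * x j = 0 := by
      intro i
      have h1 : φ (r i) = 0 := hφ (Submodule.subset_span ⟨i, rfl⟩)
      refine Eq.trans ?_ h1
      conv_rhs => rw [pi_eq_sum_univ' (r i)]
      rw [map_sum]
      refine Finset.sum_congr rfl fun j _ => ?_
      rw [map_smul, smul_eq_mul]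
    have hx0 : ∀ j : Fin m, x j = 0 := by
      intro j
      have h2 : ∑ i ∈ Finset.range (2 * m), star (A.1 i j) * ∑ j' : Fin m, A.1 i j' * x j' = 0 := by
        refine Finset.sum_eq_zero fun i hi => ?_
        rw [hx ⟨i, Finset.mem_range.1 hi⟩, mul_zero]
      simp only [Finset.mul_sum] at h2
      rw [Finset.sum_comm] at h2
      have h3 : ∀ j' : Fin m, ∑ i ∈ Finset.range (2 * m), star (A.1 i j) * (A.1 i j' * x j') =
          (if j = j' then 1 else 0) * x j' := by
        intro j'
        have h4 := A.2.2 j j.2 j' j'.2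
        simp only [← mul_assoc]
        rw [← Finset.sum_mul, h4]
        congr 1
        simp [Fin.ext_iff]
      simp only [h3] at h2
      simpa using h2
    apply hφ0
    refine LinearMap.pi_ext' fun j => LinearMap.ext_ring ?_
    simpa using hx0 j
  rw [htop] at hsp
  let b : Module.Basis κ ℂ (Fin m → ℂ) := Module.Basis.mk hli (by rw [hsp])
  have : Fintype κ := FiniteDimensional.fintypeBasisIndex b
  have hcard : Fintype.card κ = Fintype.card (Fin m) := by
    rw [← Module.finrank_eq_card_basis b, Module.finrank_fintype_fun_eq_card]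
  let e : Fin m ≃ κ := (Fintype.equivOfCardEq hcard).symm
  refine ⟨fun c => if h : c < m then (a (e ⟨c, h⟩) : ℕ) else 2 * c, fun c hc => dif_neg (by omega), ?_⟩
  rw [minor]
  have h1 : (Matrix.of fun i j : Fin m => A.1 ((fun c : ℕ => if h : c < m then (a (e ⟨c, h⟩) : ℕ)
      else 2 * c) i) j) = Matrix.of fun i => r (a (e i)) := by
    ext i j
    simp [r]
  rw [h1]
  have h2 : LinearIndependent ℂ (fun i : Fin m => r (a (e i))) :=
    hli.comp e e.injective
  have h3 : IsUnit (Matrix.of fun i => r (a (e i))) := Matrix.linearIndependent_rows_iff_isUnit.1 h2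
  exact ((Matrix.isUnit_iff_isUnit_det _).1 h3).ne_zero

theorem minor_add {k : ℕ} (A : Frame k) (s : ℕ → ℕ) (M n : ℕ) (hM : k ≤ M)
    (hs : ∀ c, M ≤ c → s c = 2 * c) : minor A.1 s (M + n) = minor A.1 s M := by
  induction n with
  | zero => rfl
  | succ n ih =>
    rw [← ih, ← add_assoc]
    exact minor_succ A s (M + n) (by omega) (hs _ (by omega))

/-- the same point at a later stage -/
theorem mk_stage (D : Set ℂ) {k m : ℕ} (h : k ≤ m) (A : Frame k) : ∃ A' : Frame m,
    (Quot.mk (BRel D) ⟨k, A⟩ : BG D) = Quot.mk (BRel D) ⟨m, A'⟩ := by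
  induction m, h using Nat.le_induction with
  | base => exact ⟨A, rfl⟩
  | succ m _ ih =>
    obtain ⟨A', hA'⟩ := ih
    exact ⟨A'.incl, hA'.trans (Quot.sound (.stab A'))⟩

/-- isometries with the same range differ by a unitary matrix -/
theorem exists_unitary {m : ℕ} (A B : Frame m) (h : ∀ i j, pij A.1 i j = pij B.1 i j) :
    ∃ g ∈ Matrix.unitaryGroup (Fin m) ℂ,
      ∀ (i : ℕ) (j : Fin m), B.1 i j = ∑ l : Fin m, A.1 i l * g l j := by
  let a : Matrix (Fin (2 * m)) (Fin m) ℂ := Matrix.of fun i j => A.1 i j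
  let b : Matrix (Fin (2 * m)) (Fin m) ℂ := Matrix.of fun i j => B.1 i j
  have hb : bᴴ * b = 1 := by
    ext j j'
    rw [Matrix.mul_apply, Matrix.one_apply]
    have := B.2.2 j j.2 j' j'.2
    rw [Finset.sum_range] at this
    simpa [b, Fin.ext_iff] using this
  have hab : a * aᴴ = b * bᴴ := by
    ext i j
    have h1 := h i j
    rw [pij_eq, pij_eq, add_left_inj, Finset.sum_range, Finset.sum_range] at h1
    rw [Matrix.mul_apply, Matrix.mul_apply]
    exact h1
  refine ⟨aᴴ * b, ?_, fun i j => ?_⟩
  · rw [Matrix.mem_unitaryGroup_iff', Matrix.star_eq_conjTranspose, Matrix.conjTranspose_mul,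
      Matrix.conjTranspose_conjTranspose]
    calc bᴴ * a * (aᴴ * b) = bᴴ * (a * aᴴ) * b := by simp only [Matrix.mul_assoc]
      _ = (bᴴ * b) * (bᴴ * b) := by rw [hab]; simp only [Matrix.mul_assoc]
      _ = 1 := by rw [hb, one_mul]
  · by_cases hi : i < 2 * m
    · have h1 : a * (aᴴ * b) = b := by
        rw [← Matrix.mul_assoc, hab, Matrix.mul_assoc, hb, Matrix.mul_one]
      have h2 := congrFun (congrFun h1 ⟨i, hi⟩) j
      rw [Matrix.mul_apply] at h2
      exact h2.symm
    · rw [B.2.1 i j (Or.inl (by omega)), if_neg (by have := j.2; omega)]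
      symm
      refine Finset.sum_eq_zero fun l _ => ?_
      rw [A.2.1 i l (Or.inl (by omega)), if_neg (by have := l.2; omega), zero_mul]

/-- `BG D` is a Hausdorff space for `D = ℂ` and `D = {1}`. -/
theorem t2_BG {D : Set ℂ} (hD : D = Set.univ ∨ D = {1}) : T2Space (BG D) := by
  constructor
  intro x y hxy
  by_contra hns
  have hf : ∀ f : BG D → ℂ, Continuous f → f x = f y := by
    intro f hf
    by_contra hne
    exact hns (separated_by_continuous hf hne)
  apply hxy
  induction x using Quot.ind with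
  | _ x =>
  induction y using Quot.ind with
  | _ y =>
  obtain ⟨k, A0⟩ := x
  obtain ⟨l, B0⟩ := y
  obtain ⟨A, hA⟩ := mk_stage D (le_max_left k l) A0
  obtain ⟨B, hB⟩ := mk_stage D (le_max_right k l) B0
  rw [hA, hB] at hf ⊢
  clear hns hxy hA hB A0 B0
  generalize max k l = m at A B hf
  obtain ⟨g, hg, hgB⟩ := exists_unitary A B fun i j => hf _ (pBG_continuous D i j)
  refine Quot.sound (.rot ⟨g, hg, ?_, hgB⟩)
  rcases hD with rfl | rfl
  · exact Set.mem_univ _
  · obtain ⟨s, hs, hne⟩ := exists_minor A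
    have h1 : minor A.1 s (m + m) = minor B.1 s (m + m) := hf _ (mBG_continuous s m hs)
    rw [minor_rot hgB, minor_add A s m m le_rfl hs] at h1
    have h2 : g.det = 1 := by
      have h3 : minor A.1 s m * 1 = minor A.1 s m * g.det := by rw [mul_one]; exact h1
      exact (mul_left_cancel₀ hne h3).symm
    exact h2

end Pool.Agent.Helper36.Stab
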